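import Pool.Agent.Y30.IE.Crit

/-!
# MP_d8850a_nt, Q1: exact level sets of the intermediate exponents, and their Hausdorff measure

Let `0 ≤ d < n` and `w > (d+1)/(n-d)`, and put `s = d + (n+1)/(w+1)`. The set `{ω_{n,d} ≥ w}` has
Hausdorff dimension `s` (this is the answer to Q1), the exact level set `{ω_{n,d} = w}` also has
Hausdorff dimension `s`, and its `s`-dimensional Hausdorff measure is infinite. The set
`{ω_{n,d} = ∞}` has dimension `d`, and its `d`-dimensional Hausdorff measure is infinite if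
`d ≥ 1`.

Proof: the Cantor construction of the starting files is carried out at the critical dimension `s`,
with exponents which increase to `w` from stage to stage, and the covering argument is used to
bound the Hausdorff measure in each ball from below by a constant times the `s`-th power of its
radius.
-/

set_option autoImplicit false

open Set MeasureTheory
open scoped ENNReal

open Pool.Agent.H438R2 (omegaExp cube dim_pi)

namespace Pool.Agent.Results.MP_d8850a_nt.ExactLevelSets

/-- infinite Hausdorff measure passes from the maximum norm to the Euclidean norm -/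
theorem measure_top {n : ℕ} {s : ℝ} (hs : 0 ≤ s) {A : Set (Fin n → ℝ)} (hA : μH[s] A = ∞)
    {B : Set (EuclideanSpace ℝ (Fin n))} (hB : ∀ θ : Fin n → ℝ, θ ∈ A →
      (EuclideanSpace.equiv (Fin n) ℝ).symm θ ∈ B) : μH[s] B = ∞ := by
  have h1 : A ⊆ (EuclideanSpace.equiv (Fin n) ℝ) '' B := by
    intro θ hθ
    exact ⟨_, hB θ hθ, (EuclideanSpace.equiv (Fin n) ℝ).apply_symm_apply θ⟩
  have h2 := (EuclideanSpace.equiv (Fin n) ℝ).lipschitz.hausdorffMeasure_image_le hs B
  have h3 := (measure_mono (μ := μH[s]) h1).trans h2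
  rw [hA, top_le_iff] at h3
  by_contra hcon
  exact absurd h3 (ENNReal.mul_ne_top (ENNReal.rpow_ne_top_of_nonneg hs ENNReal.coe_ne_top) hcon)

/-- **Exact level sets of the intermediate exponents.** Let `0 ≤ d < n`.
For every real `w > (d+1)/(n-d)`, with `s = d + (n+1)/(w+1)`:

* (the answer to Q1) the set of the points of Euclidean `n`-space with `ω_{n,d} ≥ w` has Hausdorff
  dimension `s`;
* the set of the points with `ω_{n,d} = w` has Hausdorff dimension `s`;
* the points of the unit cube with `ω_{n,d} = w` have infinite `s`-dimensional Hausdorff measure.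

Moreover the set `{ω_{n,d} = ∞}` has Hausdorff dimension `d`, and if `d ≥ 1` its points in the unit
cube have infinite `d`-dimensional Hausdorff measure. -/
theorem result (n d : ℕ) (hd : d < n) :
    (∀ w : ℝ, ((d : ℝ) + 1) / ((n : ℝ) - d) < w →
      dimH {θ : EuclideanSpace ℝ (Fin n) | (w : EReal) ≤ omegaExp n d (fun i => θ i)} =
        ENNReal.ofReal ((d : ℝ) + ((n : ℝ) + 1) / (w + 1)) ∧
      dimH {θ : EuclideanSpace ℝ (Fin n) | omegaExp n d (fun i => θ i) = (w : EReal)} =
        ENNReal.ofReal ((d : ℝ) + ((n : ℝ) + 1) / (w + 1)) ∧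
      μH[(d : ℝ) + ((n : ℝ) + 1) / (w + 1)]
        {θ : EuclideanSpace ℝ (Fin n) | (∀ i, 0 ≤ θ i ∧ θ i ≤ 1) ∧
          omegaExp n d (fun i => θ i) = (w : EReal)} = ∞) ∧
    dimH {θ : EuclideanSpace ℝ (Fin n) | omegaExp n d (fun i => θ i) = ⊤} = d ∧
    (1 ≤ d → μH[(d : ℝ)] {θ : EuclideanSpace ℝ (Fin n) | (∀ i, 0 ≤ θ i ∧ θ i ≤ 1) ∧
      omegaExp n d (fun i => θ i) = ⊤} = ∞) := by
  have hnd : (0 : ℝ) < (n : ℝ) - d := by
    have : (d : ℝ) < n := by exact_mod_cast hd
    linarith
  have hge : ∀ w : ℝ, ((d : ℝ) + 1) / ((n : ℝ) - d) < w →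
      dimH {θ : EuclideanSpace ℝ (Fin n) | (w : EReal) ≤ omegaExp n d (fun i => θ i)} =
        ENNReal.ofReal ((d : ℝ) + ((n : ℝ) + 1) / (w + 1)) := by
    intro w hw
    rw [← dim_pi n d hd w hw]
    exact ContinuousLinearEquiv.dimH_preimage (EuclideanSpace.equiv (Fin n) ℝ)
      {θ : Fin n → ℝ | (w : EReal) ≤ omegaExp n d θ}
  have hinf : 1 ≤ d → μH[(d : ℝ)] {θ : EuclideanSpace ℝ (Fin n) | (∀ i, 0 ≤ θ i ∧ θ i ≤ 1) ∧
      omegaExp n d (fun i => θ i) = ⊤} = ∞ := by
    intro h1
    exact measure_top (Nat.cast_nonneg _) (Pool.Agent.Y30.IE.level_inf n d h1 hd)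
      (fun θ hθ => hθ)
  refine ⟨fun w hw => ?_, ?_, hinf⟩
  · have hw0 : 0 < w := lt_of_le_of_lt (by positivity) hw
    have hs0 : 0 ≤ (d : ℝ) + ((n : ℝ) + 1) / (w + 1) := by positivity
    have htop : μH[(d : ℝ) + ((n : ℝ) + 1) / (w + 1)]
        {θ : EuclideanSpace ℝ (Fin n) | (∀ i, 0 ≤ θ i ∧ θ i ≤ 1) ∧
          omegaExp n d (fun i => θ i) = (w : EReal)} = ∞ :=
      measure_top hs0 (Pool.Agent.Y30.IE.level_top n d hd w hw) (fun θ hθ => hθ)
    refine ⟨hge w hw, le_antisymm ?_ ?_, htop⟩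
    · rw [← hge w hw]
      exact dimH_mono (fun θ hθ => le_of_eq (Eq.symm hθ))
    · have h1 : μH[((Real.toNNReal ((d : ℝ) + ((n : ℝ) + 1) / (w + 1)) : NNReal) : ℝ)]
          {θ : EuclideanSpace ℝ (Fin n) | omegaExp n d (fun i => θ i) = (w : EReal)} ≠ 0 := by
        rw [Real.coe_toNNReal _ hs0]
        intro h0
        have h2 := measure_mono_null (μ := μH[(d : ℝ) + ((n : ℝ) + 1) / (w + 1)])
          (s := {θ : EuclideanSpace ℝ (Fin n) | (∀ i, 0 ≤ θ i ∧ θ i ≤ 1) ∧
          omegaExp n d (fun i => θ i) = (w : EReal)}) (fun θ hθ => hθ.2) h0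
        rw [htop] at h2
        exact ENNReal.top_ne_zero h2
      exact le_dimH_of_hausdorffMeasure_ne_zero h1
  · apply le_antisymm
    · -- the upper bound, from `w → ∞`
      by_contra hcon
      push Not at hcon
      obtain ⟨s, hs0, hs1, hs2⟩ := ENNReal.lt_iff_exists_real_btwn.1 hcon
      rw [← ENNReal.ofReal_natCast, ENNReal.ofReal_lt_ofReal_iff_of_nonneg (Nat.cast_nonneg _)] at hs1
      have hsd : 0 < s - d := by linarith
      obtain ⟨w, hw1, hw2⟩ : ∃ w : ℝ, ((d : ℝ) + 1) / ((n : ℝ) - d) < w ∧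
          ((n : ℝ) + 1) / (s - d) < w + 1 := by
        refine ⟨((d : ℝ) + 1) / ((n : ℝ) - d) + ((n : ℝ) + 1) / (s - d) + 1, ?_, ?_⟩
        · have : 0 < ((n : ℝ) + 1) / (s - d) := by positivity
          linarith
        · have : 0 < ((d : ℝ) + 1) / ((n : ℝ) - d) := by positivity
          linarith
      have hw0 : 0 < w := lt_of_le_of_lt (by positivity) hw1
      have h1 : dimH {θ : EuclideanSpace ℝ (Fin n) | omegaExp n d (fun i => θ i) = ⊤} ≤
          ENNReal.ofReal ((d : ℝ) + ((n : ℝ) + 1) / (w + 1)) := by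
        rw [← hge w hw1]
        refine dimH_mono (fun θ hθ => ?_)
        have hθ' : omegaExp n d (fun i => θ i) = ⊤ := hθ
        change (w : EReal) ≤ omegaExp n d (fun i => θ i)
        rw [hθ']
        exact le_top
      have h2 : (d : ℝ) + ((n : ℝ) + 1) / (w + 1) ≤ s := by
        have h3 : ((n : ℝ) + 1) / (w + 1) < s - d := by
          rw [div_lt_iff₀ hsd] at hw2
          rw [div_lt_iff₀ (by linarith)]
          linarith
        linarith
      exact absurd (lt_of_lt_of_le hs2 (h1.trans (ENNReal.ofReal_le_ofReal h2))) (lt_irrefl _)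
    · rcases Nat.eq_zero_or_pos d with h0 | h0
      · rw [h0]
        simp
      · have h1 : μH[((d : NNReal) : ℝ)]
            {θ : EuclideanSpace ℝ (Fin n) | omegaExp n d (fun i => θ i) = ⊤} ≠ 0 := by
          rw [NNReal.coe_natCast]
          intro h2
          have h3 := measure_mono_null (μ := μH[(d : ℝ)])
            (s := {θ : EuclideanSpace ℝ (Fin n) | (∀ i, 0 ≤ θ i ∧ θ i ≤ 1) ∧
            omegaExp n d (fun i => θ i) = ⊤}) (fun θ hθ => hθ.2) h2
          rw [hinf h0] at h3
          exact ENNReal.top_ne_zero h3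
        have h2 := le_dimH_of_hausdorffMeasure_ne_zero h1
        rwa [ENNReal.coe_natCast] at h2

end Pool.Agent.Results.MP_d8850a_nt.ExactLevelSets
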